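import Mathlib
import Pool.Agent.Helper550.MeasAlg

set_option autoImplicit false
set_option linter.unusedSectionVars false

/-!
# Measure algebras and quotients by compact subgroups

`q : K →+ G` is a proper surjective homomorphism of locally compact abelian groups.  Push-forward
`push : M(K) → M(G)` is a homomorphism, averaging over the kernel gives an isometric section `lft`
with `lft μ * ν = lft (μ * push ν)`.
-/

open scoped ZeroAtInfty Topology
open Filter Set MeasureTheory

namespace Pool.Agent.Y513.Ctx
open Pool.Agent.Helper550.Rad

noncomputable section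
universe u v

variable {K : Type u} [AddCommGroup K] [TopologicalSpace K] [IsTopologicalAddGroup K]
  [T2Space K] [LocallyCompactSpace K]
variable {G : Type v} [AddCommGroup G] [TopologicalSpace G] [IsTopologicalAddGroup G]
  [T2Space G] [LocallyCompactSpace G]

section
variable (q : K →+ G) (hq : IsProperMap q)

/-- `f ↦ f ∘ q`. -/
def pull (f : C₀(G, ℂ)) : C₀(K, ℂ) where
  toFun x := f (q x)
  continuous_toFun := f.continuous.comp hq.continuous
  zero_at_infty' := (zero_at_infty f).comp (isProperMap_iff_tendsto_cocompact.1 hq).2

@[simp] theorem pull_apply (f : C₀(G, ℂ)) (x : K) : pull q hq f x = f (q x) := rfl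

theorem pull_norm (f : C₀(G, ℂ)) : ‖pull q hq f‖ ≤ ‖f‖ := by
  rw [c0_norm_le (norm_nonneg _)]
  intro x
  exact c0_apply_le f _

/-- Push-forward of measures. -/
def push (ν : Meas K) : Meas G :=
  Meas.mk { toFun := fun f => ν (pull q hq f)
            map_add' := fun f g => by
              rw [show pull q hq (f + g) = pull q hq f + pull q hq g from rfl, map_add]
            map_smul' := fun c f => by
              rw [show pull q hq (c • f) = c • pull q hq f from rfl, map_smul]; rfl } ‖ν‖
    (fun f => (ν.le _).trans (mul_le_mul_of_nonneg_left (pull_norm q hq f) (norm_nonneg _)))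

@[simp] theorem push_apply (ν : Meas K) (f : C₀(G, ℂ)) : push q hq ν f = ν (pull q hq f) := rfl

theorem push_norm (ν : Meas K) : ‖push q hq ν‖ ≤ ‖ν‖ := Meas.mk_norm _ _ _ (norm_nonneg _)

theorem tr_pull (x : K) (f : C₀(G, ℂ)) : tr x (pull q hq f) = pull q hq (tr (q x) f) := by
  ext z
  simp

theorem cv_pull (ν : Meas K) (f : C₀(G, ℂ)) : cv ν (pull q hq f) = pull q hq (cv (push q hq ν) f) := by
  ext x
  change ν (tr x (pull q hq f)) = ν (pull q hq (tr (q x) f))
  rw [tr_pull]

theorem push_mul (μ ν : Meas K) : push q hq (μ * ν) = push q hq μ * push q hq ν := by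
  ext f
  rw [push_apply, Meas.mul_apply, Meas.mul_apply, push_apply, cv_pull]

theorem push_one : push q hq 1 = 1 := by
  ext f
  rw [push_apply, Meas.one_apply, Meas.one_apply, pull_apply, map_zero]

/-- Push-forward as an algebra homomorphism. -/
def pushA : Meas K →ₐ[ℂ] Meas G :=
  AlgHom.ofLinearMap
    { toFun := push q hq
      map_add' := fun _ _ => rfl
      map_smul' := fun _ _ => rfl } (push_one q hq) (push_mul q hq)

@[simp] theorem pushA_apply (ν : Meas K) : pushA q hq ν = push q hq ν := rfl

end

section mean

theorem compact_ker (q : K →+ G) (hq : IsProperMap q) : CompactSpace q.ker := by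
  have h : IsCompact ((q.ker : Set K)) := by
    have h1 := hq.isCompact_preimage (isCompact_singleton (x := (0 : G)))
    have h2 : ((q.ker : AddSubgroup K) : Set K) = q ⁻¹' {0} := by
      ext x
      simp
    rw [h2]
    exact h1
  exact isCompact_iff_compactSpace.1 h

end mean

section mean2
variable {L : Type u} [AddCommGroup L] [TopologicalSpace L] [IsTopologicalAddGroup L]
  [CompactSpace L] [MeasurableSpace L] [BorelSpace L]

variable (L) in
/-- normalised Haar measure -/
def hm : Measure L := Measure.addHaarMeasure (⊤ : TopologicalSpace.PositiveCompacts L)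

instance : (hm L).IsAddHaarMeasure := inferInstanceAs (Measure.addHaarMeasure _).IsAddHaarMeasure

instance : IsProbabilityMeasure (hm L) := ⟨by
  have h := Measure.addHaarMeasure_self (K₀ := (⊤ : TopologicalSpace.PositiveCompacts L))
  simpa [hm] using h⟩

theorem integ {E : Type*} [NormedAddCommGroup E] [NormedSpace ℂ E] {f : L → E}
    (hf : Continuous f) : Integrable f (hm L) :=
  hf.integrable_of_hasCompactSupport (HasCompactSupport.of_compactSpace f)

end mean2

end

end Pool.Agent.Y513.Ctx
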