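import Mathlib
import Pool.Agent.Y513.Ctx.Quot

set_option autoImplicit false
set_option linter.unusedSectionVars false

open scoped ZeroAtInfty Topology
open Filter Set MeasureTheory

namespace Pool.Agent.Y513.Ctx
open Pool.Agent.Helper550.Rad

noncomputable section
universe u v

variable {K : Type u} [AddCommGroup K] [TopologicalSpace K] [IsTopologicalAddGroup K]
  [T2Space K] [LocallyCompactSpace K]
variable {G : Type v} [AddCommGroup G] [TopologicalSpace G] [IsTopologicalAddGroup G]
  [T2Space G] [LocallyCompactSpace G]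

variable (q : K →+ G) (hq : IsProperMap q) (hs : Function.Surjective q)

section
variable [CompactSpace q.ker] [MeasurableSpace q.ker] [BorelSpace q.ker]

/-- The translates of `f` averaged over `x + ker q`, as an element of `C₀(K)`. -/
def avV (f : C₀(K, ℂ)) (x : K) : C₀(K, ℂ) := ∫ l : q.ker, tr (x + l) f ∂(hm q.ker)

theorem tr_integ (f : C₀(K, ℂ)) (x : K) : Integrable (fun l : q.ker => tr (x + l) f) (hm q.ker) :=
  integ ((tr_cont f).comp (continuous_const.add continuous_subtype_val))

theorem map_avV (ν : Meas K) (f : C₀(K, ℂ)) (x : K) :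
    ν (avV q f x) = ∫ l : q.ker, ν (tr (x + l) f) ∂(hm q.ker) :=
  (ContinuousLinearMap.integral_comp_comm (𝕜 := ℂ) (show StrongDual ℂ C₀(K, ℂ) from ν)
    (tr_integ q f x)).symm

theorem avV_apply (f : C₀(K, ℂ)) (x z : K) :
    avV q f x z = ∫ l : q.ker, f (x + l + z) ∂(hm q.ker) :=
  map_avV q (dl z) f x

/-- The average of `f` over `x + ker q`. -/
def av (f : C₀(K, ℂ)) (x : K) : ℂ := ∫ l : q.ker, f (x + l) ∂(hm q.ker)

theorem f_integ (f : C₀(K, ℂ)) (x : K) : Integrable (fun l : q.ker => f (x + l)) (hm q.ker) :=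
  integ (f.continuous.comp (continuous_const.add continuous_subtype_val))

theorem av_eq (f : C₀(K, ℂ)) (x : K) : av q f x = avV q f x 0 := by
  rw [avV_apply]
  simp [av]

theorem av_cont (f : C₀(K, ℂ)) : Continuous (av q f) := by
  rw [continuous_iff_continuousAt]
  intro x
  rw [ContinuousAt, Metric.tendsto_nhds]
  intro ε hε
  obtain ⟨V, hV, h⟩ := tr_near f (half_pos hε)
  have hc : Tendsto (fun y : K => y - x) (𝓝 x) (𝓝 (x - x)) :=
    (continuous_id.sub continuous_const).tendsto x
  rw [sub_self] at hc
  filter_upwards [hc hV] with y hy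
  rw [dist_eq_norm, av, av, ← integral_sub (f_integ q f y) (f_integ q f x)]
  refine lt_of_le_of_lt (norm_integral_le_of_norm_le_const (C := ε / 2)
    (Eventually.of_forall fun l => ?_)) ?_
  · have h2 := c0_apply_le (tr y f - tr x f) (l : K)
    simp only [ZeroAtInftyContinuousMap.sub_apply, tr_apply] at h2
    exact h2.trans (h y x hy)
  · rw [probReal_univ, mul_one]
    exact half_lt_self hε

theorem av_inv (f : C₀(K, ℂ)) {x y : K} (h : q x = q y) : av q f x = av q f y := by
  have hk : x - y ∈ q.ker := by
    rw [AddMonoidHom.mem_ker, map_sub, h, sub_self]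
  have h1 : av q f x = ∫ l : q.ker, (fun m : q.ker => f (y + m)) (⟨x - y, hk⟩ + l) ∂(hm q.ker) := by
    refine integral_congr_ae (Eventually.of_forall fun l => ?_)
    simp only [AddSubgroup.coe_add]
    congr 1
    abel
  exact h1.trans (integral_add_left_eq_self (μ := hm q.ker) (fun m : q.ker => f (y + m))
    ⟨x - y, hk⟩)

/-- The average of `f` over the fibres of `q`, as an element of `C₀(G)`. -/
def avg (f : C₀(K, ℂ)) : C₀(G, ℂ) where
  toFun y := av q f (Function.surjInv hs y)
  continuous_toFun := by
    rw [(hq.isClosedMap.isQuotientMap hq.continuous hs).continuous_iff]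
    have : (fun y => av q f (Function.surjInv hs y)) ∘ q = av q f := by
      funext x
      exact av_inv q f (Function.surjInv_eq hs (q x))
    rw [this]
    exact av_cont q f
  zero_at_infty' := by
    rw [Metric.tendsto_nhds]
    intro ε hε
    have h1 := (Metric.tendsto_nhds.1 (zero_at_infty f)) (ε / 2) (half_pos hε)
    obtain ⟨C, hC, hC2⟩ := mem_cocompact.1 h1
    refine mem_cocompact.2 ⟨q '' C, hC.image hq.continuous, fun y hy => ?_⟩
    change dist (av q f (Function.surjInv hs y)) 0 < ε
    rw [dist_zero_right, av]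
    refine lt_of_le_of_lt (norm_integral_le_of_norm_le_const (C := ε / 2)
      (Eventually.of_forall fun l => ?_)) ?_
    · have h3 : Function.surjInv hs y + (l : K) ∈ Cᶜ := by
        intro h4
        apply hy
        refine ⟨_, h4, ?_⟩
        rw [map_add, Function.surjInv_eq hs y, (AddMonoidHom.mem_ker).1 l.2, add_zero]
      have h5 := hC2 h3
      simp only [dist_zero_right, mem_ofPred_eq] at h5
      exact h5.le
    · rw [probReal_univ, mul_one]
      exact half_lt_self hε

theorem avg_apply (f : C₀(K, ℂ)) (x : K) : avg q hq hs f (q x) = av q f x :=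
  av_inv q f (Function.surjInv_eq hs (q x))

theorem avg_norm (f : C₀(K, ℂ)) : ‖avg q hq hs f‖ ≤ ‖f‖ := by
  rw [c0_norm_le (norm_nonneg _)]
  intro y
  obtain ⟨x, rfl⟩ := hs y
  rw [avg_apply, av]
  refine (norm_integral_le_of_norm_le_const (C := ‖f‖)
      (Eventually.of_forall fun l => c0_apply_le f _)).trans ?_
  rw [probReal_univ, mul_one]

theorem avg_add (f g : C₀(K, ℂ)) : avg q hq hs (f + g) = avg q hq hs f + avg q hq hs g := by
  ext y
  obtain ⟨x, rfl⟩ := hs y
  rw [ZeroAtInftyContinuousMap.add_apply, avg_apply, avg_apply, avg_apply]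
  exact integral_add (f_integ q f x) (f_integ q g x)

theorem avg_smul (c : ℂ) (f : C₀(K, ℂ)) : avg q hq hs (c • f) = c • avg q hq hs f := by
  ext y
  obtain ⟨x, rfl⟩ := hs y
  rw [ZeroAtInftyContinuousMap.smul_apply, avg_apply, avg_apply]
  exact integral_const_mul c _

theorem avg_pull (f : C₀(G, ℂ)) : avg q hq hs (pull q hq f) = f := by
  ext y
  obtain ⟨x, rfl⟩ := hs y
  rw [avg_apply, av]
  have : ∀ l : q.ker, pull q hq f (x + l) = f (q x) := by
    intro l
    rw [pull_apply, map_add, (AddMonoidHom.mem_ker).1 l.2, add_zero]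
  simp only [this, integral_const, probReal_univ, one_smul]

/-- The isometric section of the push-forward: average over the kernel. -/
def lft (μ : Meas G) : Meas K :=
  Meas.mk { toFun := fun f => μ (avg q hq hs f)
            map_add' := fun f g => by rw [avg_add, map_add]
            map_smul' := fun c f => by rw [avg_smul, map_smul]; rfl } ‖μ‖
    (fun f => (μ.le _).trans (mul_le_mul_of_nonneg_left (avg_norm q hq hs f) (norm_nonneg _)))

@[simp] theorem lft_apply (μ : Meas G) (f : C₀(K, ℂ)) : lft q hq hs μ f = μ (avg q hq hs f) := rfl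

theorem push_lft (μ : Meas G) : push q hq (lft q hq hs μ) = μ := by
  ext f
  rw [push_apply, lft_apply, avg_pull]

theorem lft_norm (μ : Meas G) : ‖lft q hq hs μ‖ = ‖μ‖ := by
  apply le_antisymm
  · exact Meas.mk_norm _ _ _ (norm_nonneg _)
  · conv_lhs => rw [← push_lft q hq hs μ]
    exact push_norm q hq _

theorem lft_mul (μ : Meas G) (ν : Meas K) :
    lft q hq hs μ * ν = lft q hq hs (μ * push q hq ν) := by
  ext f
  rw [Meas.mul_apply, lft_apply, lft_apply, Meas.mul_apply]
  congr 1
  ext y
  obtain ⟨x, rfl⟩ := hs y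
  rw [avg_apply]
  change (∫ l : q.ker, ν (tr (x + l) f) ∂(hm q.ker)) = ν (pull q hq (tr (q x) (avg q hq hs f)))
  rw [← map_avV]
  congr 1
  ext z
  rw [avV_apply, pull_apply, tr_apply, ← map_add, avg_apply, av]
  refine integral_congr_ae (Eventually.of_forall fun l => ?_)
  change f (x + l + z) = f (x + z + l)
  congr 1
  abel

end
end

end Pool.Agent.Y513.Ctx
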