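import Mathlib
import Pool.Agent.Y513.Ctx.Avg
import Pool.Agent.TH258.Cx.Final

set_option autoImplicit false
set_option linter.unusedSectionVars false

open scoped ZeroAtInfty Topology
open Filter Set MeasureTheory

namespace Pool.Agent.Y513.Ctx
open Pool.Agent.Helper550.Rad

noncomputable section
universe u v

variable {K : Type u} [AddCommGroup K] [TopologicalSpace K] [IsTopologicalAddGroup K]
  [T2Space K] [LocallyCompactSpace K]
variable {G : Type v} [AddCommGroup G] [TopologicalSpace G] [IsTopologicalAddGroup G]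
  [T2Space G] [LocallyCompactSpace G]

/-- If finitely many elements of the kernel of a character `φ` of `M(G)` are bounded below
jointly, by `c ≤ 1`, then the same constant works for one more element on every `K` that has `G` as
quotient by a compact subgroup. -/
theorem transfer (q : K →+ G) (hq : IsProperMap q) (hs : Function.Surjective q)
    (φ : Meas G →ₐ[ℂ] ℂ) (n : ℕ) (x : Fin n → Meas G) (hx : ∀ j, φ (x j) = 0)
    (c : ℝ) (hc0 : 0 ≤ c) (hc1 : c ≤ 1) (hb : ∀ ν : Meas G, c * ‖ν‖ ≤ ∑ j, ‖x j * ν‖) :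
    ∃ (ψ : Meas K →ₐ[ℂ] ℂ) (y : Fin (n + 1) → Meas K), (∀ j, ψ (y j) = 0) ∧
      ∀ ν : Meas K, c * ‖ν‖ ≤ ∑ j, ‖y j * ν‖ := by
  have : CompactSpace q.ker := compact_ker q hq
  letI : MeasurableSpace q.ker := borel q.ker
  haveI : BorelSpace q.ker := ⟨rfl⟩
  refine ⟨φ.comp (pushA q hq), Fin.cons (1 - lft q hq hs 1) (fun j => lft q hq hs (x j)), ?_, ?_⟩
  · intro j
    refine Fin.cases ?_ (fun j => ?_) j
    · rw [Fin.cons_zero, AlgHom.comp_apply, map_sub, map_one, pushA_apply, push_lft, sub_self,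
        map_zero]
    · rw [Fin.cons_succ, AlgHom.comp_apply, pushA_apply, push_lft, hx]
  · intro ν
    rw [Fin.sum_univ_succ, Fin.cons_zero]
    simp only [Fin.cons_succ, lft_mul, lft_norm]
    rw [sub_mul, one_mul, lft_mul, one_mul]
    have h1 := hb (push q hq ν)
    have h2 : ‖ν‖ ≤ ‖ν - lft q hq hs (push q hq ν)‖ + ‖push q hq ν‖ := by
      have h3 := norm_add_le (ν - lft q hq hs (push q hq ν)) (lft q hq hs (push q hq ν))
      rw [sub_add_cancel, lft_norm] at h3
      exact h3
    have h4 : c * ‖ν‖ ≤ c * ‖ν - lft q hq hs (push q hq ν)‖ + c * ‖push q hq ν‖ := by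
      rw [← mul_add]
      exact mul_le_mul_of_nonneg_left h2 hc0
    have h5 : c * ‖ν - lft q hq hs (push q hq ν)‖ ≤ ‖ν - lft q hq hs (push q hq ν)‖ :=
      mul_le_of_le_one_left (norm_nonneg _) hc1
    linarith

end

end Pool.Agent.Y513.Ctx
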