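import Mathlib
import Pool.Agent.Y513.Ctx.Perm

set_option autoImplicit false
set_option linter.unusedSectionVars false
set_option linter.style.haveILetI false

open scoped ZeroAtInfty Topology
open Filter Set MeasureTheory

namespace Pool.Agent.Y513.Ctx
open Pool.Agent.Helper550.Rad Pool.Agent.TH258.Cx

noncomputable section
universe u v w

variable {K : Type u} [AddCommGroup K] [TopologicalSpace K] [IsTopologicalAddGroup K]
  [T2Space K] [LocallyCompactSpace K]
variable {C : Type v} [AddCommGroup C] [TopologicalSpace C] [IsTopologicalAddGroup C]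
  [T2Space C] [LocallyCompactSpace C]

section
variable (j : C →+ K) (hj : IsProperMap j)

theorem cv_push (μ : Meas C) (f : C₀(K, ℂ)) (x : K) :
    cv (push j hj μ) f x = cv μ (pull j hj (tr x f)) 0 := by
  rw [← apply_eq]; rfl

theorem pull_tr_sq (f : C₀(K, ℂ)) (x : K) : pull j hj (tr x (sq f)) = sq (pull j hj (tr x f)) := by
  ext z; rfl

theorem pull_tr_cv (μ : Meas C) (f : C₀(K, ℂ)) (x : K) :
    pull j hj (tr x (cv (push j hj μ) f)) = cv μ (pull j hj (tr x f)) := by
  rw [cv_pull, cv_tr]

theorem dom_push {κ η w : Meas C} (h : Dom κ η w) :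
    Dom (push j hj κ) (push j hj η) (push j hj w) := by
  intro f x
  rw [cv_push, cv_push, pull_tr_sq, pull_tr_cv, pull_tr_sq]
  exact h _ _

theorem ord_push {μ : Meas C} (h : Ord μ) : Ord (push j hj μ) := by
  intro g k hgk x
  rw [cv_push, cv_push]
  exact h _ _ (fun z => hgk _) 0

theorem inv_pull {Y : Set C} {g : C₀(K, ℂ)} (h : Inv (j '' Y) g) (x : K) :
    Inv Y (pull j hj (tr x g)) := by
  intro y hy z
  change g (x + j (z + y)) = g (x + j z)
  rw [j.map_add, ← add_assoc]
  exact h (j y) ⟨y, hy, rfl⟩ _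

theorem cv_push_congr {Y : Set C} {κ κ' : Meas C} (h : ∀ g, Inv Y g → cv κ g = cv κ' g)
    (g : C₀(K, ℂ)) (hg : Inv (j '' Y) g) : cv (push j hj κ) g = cv (push j hj κ') g := by
  ext x
  rw [cv_push, cv_push, h _ (inv_pull j hj hg x)]

end

section haar
variable {L : Type w} [AddCommGroup L] [TopologicalSpace L] [IsTopologicalAddGroup L]
  [CompactSpace L] [MeasurableSpace L] [BorelSpace L] (i : L →+ K) (hi : Continuous i)

include hi in
theorem h_integ (f : C₀(K, ℂ)) (x : K) : Integrable (fun l : L => f (x + i l)) (hm L) :=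
  integ (f.continuous.comp (continuous_const.add hi))

/-- The image in `K` of the normalised Haar measure of the compact group `L`. -/
def hM : Meas K :=
  Meas.mk { toFun := fun f => ∫ l : L, f (0 + i l) ∂(hm L)
            map_add' := fun f g => integral_add (h_integ i hi f 0) (h_integ i hi g 0)
            map_smul' := fun c f => integral_const_mul c _ } 1
    (fun f => by
      refine (norm_integral_le_of_norm_le_const (C := ‖f‖)
        (Eventually.of_forall fun l => c0_apply_le f _)).trans ?_
      rw [probReal_univ, mul_one, one_mul])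

theorem cv_hM (f : C₀(K, ℂ)) (x : K) : cv (hM i hi) f x = ∫ l : L, f (x + i l) ∂(hm L) := by
  rw [cv_apply]
  change (∫ l : L, f (x + (0 + i l)) ∂(hm L)) = _
  simp only [zero_add]

theorem hM_inv (f : C₀(K, ℂ)) : Inv (range i) (cv (hM i hi) f) := by
  rintro _ ⟨m, rfl⟩ x
  rw [cv_hM, cv_hM]
  have h1 : (∫ l : L, f (x + i m + i l) ∂(hm L)) =
      ∫ l : L, (fun k : L => f (x + i k)) (m + l) ∂(hm L) := by
    refine integral_congr_ae (Eventually.of_forall fun l => ?_)
    simp only [i.map_add, add_assoc]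
  exact h1.trans (integral_add_left_eq_self (μ := hm L) (fun k : L => f (x + i k)) m)

theorem hM_norm (f : C₀(K, ℂ)) : ‖cv (hM i hi) f‖ ≤ ‖f‖ := by
  rw [c0_norm_le (norm_nonneg _)]
  intro x
  rw [cv_hM]
  refine (norm_integral_le_of_norm_le_const (C := ‖f‖)
        (Eventually.of_forall fun l => c0_apply_le f _)).trans ?_
  rw [probReal_univ, mul_one]

theorem hM_near (f : C₀(K, ℂ)) {δ : ℝ} (hδ : 0 ≤ δ) (h : ∀ (l : L) (x : K), ‖f (i l + x) - f x‖ ≤ δ) :
    ‖f - cv (hM i hi) f‖ ≤ δ := by
  rw [c0_norm_le hδ]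
  intro x
  rw [ZeroAtInftyContinuousMap.sub_apply, cv_hM]
  have h1 : f x = ∫ l : L, f x ∂(hm L) := by
    rw [integral_const, probReal_univ, one_smul]
  rw [h1, ← integral_sub (integrable_const _) (h_integ i hi f x)]
  refine (norm_integral_le_of_norm_le_const (C := δ)
        (Eventually.of_forall fun l => ?_)).trans ?_
  · have h2 := h l x
    rw [norm_sub_rev, add_comm] at h2
    exact h2
  · rw [probReal_univ, mul_one]

end haar

end

end Pool.Agent.Y513.Ctx
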