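import Mathlib
import Pool.Agent.Y513.Ctx.Emb

set_option autoImplicit false
set_option linter.unusedSectionVars false
set_option linter.style.haveILetI false

open scoped ZeroAtInfty Topology BoundedContinuousFunction Pointwise
open Filter Set MeasureTheory

namespace Pool.Agent.Y513.Ctx
open Pool.Agent.Helper550.Rad Pool.Agent.TH258.Cx

noncomputable section
universe u v w

variable {K : Type u} [AddCommGroup K] [TopologicalSpace K] [IsTopologicalAddGroup K]
  [T2Space K] [LocallyCompactSpace K]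
variable {C : Type v} [AddCommGroup C] [TopologicalSpace C] [IsTopologicalAddGroup C]
  [T2Space C] [CompactSpace C]

/-- A real function with compact support as an element of `C₀`. -/
def ofR (f : C(K, ℝ)) (hf : HasCompactSupport f) : C₀(K, ℂ) where
  toFun x := (f x : ℂ)
  continuous_toFun := Complex.continuous_ofReal.comp f.continuous
  zero_at_infty' := by
    have h : HasCompactSupport (fun x => (f x : ℂ)) := hf.comp_left (g := fun r : ℝ => (r : ℂ)) rfl
    exact h.is_zero_at_infty

/-- Extension of functions from a compact subgroup. -/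
theorem exists_ext (j : C →+ K) (hj : IsProperMap j) (hinj : Function.Injective j)
    (g : C₀(C, ℂ)) (hg : ‖g‖ ≤ 1) : ∃ f : C₀(K, ℂ), ‖f‖ ≤ 1 ∧ pull j hj f = g := by
  let e : C → OnePoint K := fun z => ((j z : K) : OnePoint K)
  have he : Topology.IsClosedEmbedding e :=
    Continuous.isClosedEmbedding (OnePoint.continuous_coe.comp hj.continuous)
      (OnePoint.coe_injective.comp hinj)
  obtain ⟨G, hG⟩ := ContinuousMap.exists_extension' he (⟨g, g.continuous⟩ : C(C, ℂ))
  have hcr : IsCompact (range j) := isCompact_range hj.continuous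
  obtain ⟨u, hu1, -, hu3, hu4⟩ := exists_continuous_one_zero_of_isCompact hcr isClosed_empty
    (disjoint_empty _)
  let Gb : K →ᵇ ℂ := BoundedContinuousFunction.ofNormedAddCommGroup (fun x : K => G (x : OnePoint K))
    (G.continuous.comp OnePoint.continuous_coe) ‖G‖ (fun x => G.norm_coe_le_norm _)
  let f₀ : C₀(K, ℂ) := bm Gb (ofR u hu3)
  have hf₀ : ∀ z : C, f₀ (j z) = g z := by
    intro z
    change G ((j z : K) : OnePoint K) * ((u (j z) : ℝ) : ℂ) = g z
    have h1 : u (j z) = 1 := hu1 ⟨z, rfl⟩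
    have h2 : G ((j z : K) : OnePoint K) = g z := congrFun hG z
    rw [h1, h2, Complex.ofReal_one, mul_one]
  refine ⟨bm (trunc f₀ one_pos) f₀, trunc_bound f₀ one_pos, ?_⟩
  ext z
  change ((1 / max 1 ‖f₀ (j z)‖ : ℝ) : ℂ) * f₀ (j z) = g z
  have h3 : ‖f₀ (j z)‖ ≤ 1 := by
    rw [hf₀]
    exact (c0_apply_le g z).trans hg
  rw [max_eq_left h3, hf₀, div_one, Complex.ofReal_one, one_mul]

/-- Invariant cutoff functions. -/
theorem exists_cut (j : C →+ K) (hj : IsProperMap j) (W : Set K) (hW : IsOpen W)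
    (hWj : range j ⊆ W) : ∃ u : C₀(K, ℂ), TH258.Cx.Inv (range j) u ∧ (∀ z, u (j z) = 1) ∧ ‖u‖ ≤ 1 ∧
      ∀ x, x ∉ W → u x = 0 := by
  letI : MeasurableSpace C := borel C
  haveI : BorelSpace C := ⟨rfl⟩
  have hcr : IsCompact (range j) := isCompact_range hj.continuous
  obtain ⟨V, hV, hV2⟩ := compact_open_separated_add_right hcr hW hWj
  have hop : IsOpen (range j + interior V) := isOpen_interior.add_left
  have h0 : (0 : K) ∈ interior V := mem_interior_iff_mem_nhds.2 hV
  have hsub : range j ⊆ range j + interior V := by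
    intro x hx
    exact ⟨x, hx, 0, h0, add_zero x⟩
  obtain ⟨u, hu1, hu2, hu3, hu4⟩ := exists_continuous_one_zero_of_isCompact hcr
    hop.isClosed_compl (disjoint_compl_right_iff_subset.2 hsub)
  have hb : ‖ofR u hu3‖ ≤ 1 := by
    rw [c0_norm_le zero_le_one]
    intro x
    change ‖((u x : ℝ) : ℂ)‖ ≤ 1
    rw [Complex.norm_real, Real.norm_eq_abs, abs_of_nonneg (hu4 x).1]
    exact (hu4 x).2
  refine ⟨cv (hM j hj.continuous) (ofR u hu3), hM_inv j hj.continuous _, ?_,
    (hM_norm j hj.continuous _).trans hb, ?_⟩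
  · intro z
    rw [cv_hM]
    have h1 : ∀ l : C, ofR u hu3 (j z + j l) = 1 := by
      intro l
      change ((u (j z + j l) : ℝ) : ℂ) = 1
      rw [← j.map_add, hu1 ⟨z + l, rfl⟩]
      simp
    simp only [h1, integral_const, probReal_univ, one_smul]
  · intro x hx
    rw [cv_hM]
    have h1 : ∀ l : C, ofR u hu3 (x + j l) = 0 := by
      intro l
      change ((u (x + j l) : ℝ) : ℂ) = 0
      have h2 : x + j l ∈ (range j + interior V)ᶜ := by
        intro h3
        apply hx
        apply hV2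
        obtain ⟨_, ⟨z, rfl⟩, v, hv, h4⟩ := h3
        refine ⟨j (z - l), ⟨_, rfl⟩, v, interior_subset hv, ?_⟩
        change j (z - l) + v = x
        have h4' : j z + v = x + j l := h4
        rw [j.map_sub]
        calc j z - j l + v = (j z + v) - j l := by abel
          _ = x := by rw [h4']; abel
      rw [hu2 h2]
      simp
    simp only [h1, integral_zero]

/-- Test functions on `K` which see the compact subgroup only. -/
theorem exists_test (j : C →+ K) (hj : IsProperMap j) (hinj : Function.Injective j)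
    (κ : Meas C) (g : C₀(C, ℂ)) (hg : ‖g‖ ≤ 1) {ε : ℝ} (hε : 0 < ε) :
    ∃ f : C₀(K, ℂ), ‖f‖ ≤ 1 ∧ pull j hj f = g ∧ ‖cv (push j hj κ) f‖ ≤ ‖cv κ g‖ + ε := by
  obtain ⟨f₁, hf1, hf2⟩ := exists_ext j hj hinj g hg
  set φ := cv (push j hj κ) f₁ with hφ
  let W : Set K := {x | ‖φ x‖ < ‖cv κ g‖ + ε}
  have hW : IsOpen W := isOpen_lt φ.continuous.norm continuous_const
  have hWj : range j ⊆ W := by
    rintro _ ⟨z, rfl⟩
    have h1 : φ (j z) = cv κ g z := by
      rw [← hf2, cv_pull]
      rfl
    change ‖φ (j z)‖ < _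
    rw [h1]
    exact lt_of_le_of_lt (c0_apply_le _ z) (lt_add_of_pos_right _ hε)
  obtain ⟨u, hu1, hu2, hu3, hu4⟩ := exists_cut j hj W hW hWj
  refine ⟨u * f₁, ?_, ?_, ?_⟩
  · rw [c0_norm_le zero_le_one]
    intro x
    rw [ZeroAtInftyContinuousMap.mul_apply, norm_mul]
    exact mul_le_one₀ ((c0_apply_le u x).trans hu3) (norm_nonneg _) ((c0_apply_le f₁ x).trans hf1)
  · ext z
    rw [pull_apply, ZeroAtInftyContinuousMap.mul_apply, hu2, one_mul, ← pull_apply j hj, hf2]
  · rw [c0_norm_le (by positivity)]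
    intro x
    have h1 : cv (push j hj κ) (u * f₁) x = u x * φ x := by
      rw [hφ, cv_apply, cv_apply, push_apply, push_apply]
      have h2 : pull j hj (tr x (u * f₁)) = u x • pull j hj (tr x f₁) := by
        ext z
        change u (x + j z) * f₁ (x + j z) = u x * f₁ (x + j z)
        rw [hu1 (j z) ⟨z, rfl⟩]
      rw [h2, map_smul, smul_eq_mul]
    rw [h1, norm_mul]
    by_cases hx : x ∈ W
    · have h3 : ‖u x‖ ≤ 1 := (c0_apply_le u x).trans hu3
      have h4 : ‖φ x‖ < ‖cv κ g‖ + ε := hx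
      calc ‖u x‖ * ‖φ x‖ ≤ 1 * ‖φ x‖ := mul_le_mul_of_nonneg_right h3 (norm_nonneg _)
        _ ≤ _ := by rw [one_mul]; exact h4.le
    · rw [hu4 x hx, norm_zero, zero_mul]
      positivity

end

end Pool.Agent.Y513.Ctx
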