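import Mathlib
import Pool.Agent.Y513.Ctx.TestF

set_option autoImplicit false
set_option linter.unusedSectionVars false
set_option linter.style.haveILetI false

open scoped ZeroAtInfty Topology BoundedContinuousFunction Pointwise
open Filter Set MeasureTheory

namespace Pool.Agent.Y513.Ctx
open Pool.Agent.Helper550.Rad Pool.Agent.TH258.Cx

noncomputable section
universe u v w

variable {K : Type u} [AddCommGroup K] [TopologicalSpace K] [IsTopologicalAddGroup K]
  [T2Space K] [LocallyCompactSpace K]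

/-- The subgroup of `GG` of the elements vanishing on `F`. -/
def ZS (F : Finset (ℕ × ℕ)) : AddSubgroup GG where
  carrier := Z F
  zero_mem' := fun _ _ => rfl
  add_mem' := by
    intro a b ha hb i hi
    rw [Pi.add_apply, ha i hi, hb i hi, add_zero]
  neg_mem' := by
    intro a ha i hi
    rw [Pi.neg_apply, ha i hi, neg_zero]

theorem ZS_compact (F : Finset (ℕ × ℕ)) : CompactSpace (ZS F) := by
  have h : IsClosed (Z F : Set GG) := by
    have : (Z F : Set GG) = ⋂ i ∈ F, {y : GG | y i = 0} := by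
      ext y
      simp [Z]
    rw [this]
    exact isClosed_biInter fun i _ => isClosed_eq (continuous_apply i) continuous_const
  exact isCompact_iff_compactSpace.1 (h.isCompact : IsCompact (Z F : Set GG))

variable (j : GG →+ K) (hj : IsProperMap j)

include hj in
theorem exists_approxK (f : C₀(K, ℂ)) {δ : ℝ} (hδ : 0 < δ) :
    ∃ (F : Finset (ℕ × ℕ)) (g : C₀(K, ℂ)), TH258.Cx.Inv (j '' Z F) g ∧ ‖g‖ ≤ ‖f‖ ∧ ‖f - g‖ ≤ δ := by
  obtain ⟨V, hV, hV2⟩ := tr_equi f hδ
  have hV' : j ⁻¹' V ∈ 𝓝 (0 : GG) := by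
    refine hj.continuous.continuousAt.preimage_mem_nhds ?_
    rw [j.map_zero]
    exact hV
  rw [nhds_pi, Filter.mem_pi'] at hV'
  obtain ⟨F, t, ht, hFt⟩ := hV'
  haveI : CompactSpace (ZS F) := ZS_compact F
  letI : MeasurableSpace (ZS F) := borel (ZS F)
  haveI : BorelSpace (ZS F) := ⟨rfl⟩
  let i : ZS F →+ K := j.comp (ZS F).subtype
  have hi : Continuous i := hj.continuous.comp continuous_subtype_val
  have hr : range i = j '' Z F := by
    ext x
    constructor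
    · rintro ⟨l, rfl⟩
      exact ⟨l, l.2, rfl⟩
    · rintro ⟨y, hy, rfl⟩
      exact ⟨⟨y, hy⟩, rfl⟩
  refine ⟨F, cv (hM i hi) f, ?_, hM_norm i hi f, hM_near i hi f hδ.le ?_⟩
  · rw [← hr]
    exact hM_inv i hi f
  · intro l x
    refine hV2 _ ?_ x
    change (l : GG) ∈ j ⁻¹' V
    apply hFt
    intro k hk
    have h2 : (l : GG) k = 0 := l.2 k hk
    rw [h2]
    exact mem_of_mem_nhds (ht k)

/-- the inequality `‖η ν‖² ≤ ‖κ ν‖ ‖ν‖` for all measures `ν` on `K` -/
theorem main_ineqK {κ η : Meas GG}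
    (hκ : ∀ (F : Finset (ℕ × ℕ)) (g : C₀(GG, ℂ)), TH258.Cx.Inv (Z F) g →
      cv κ g = cv (∏ i ∈ F, kap i) g)
    (hη : ∀ (F : Finset (ℕ × ℕ)) (g : C₀(GG, ℂ)), TH258.Cx.Inv (Z F) g →
      cv η g = cv (∏ i ∈ F, et i) g)
    (ν : Meas K) : ‖push j hj η * ν‖ ^ 2 ≤ ‖push j hj κ * ν‖ * ‖ν‖ := by
  have hηn : ∀ i, ‖et i‖ ≤ 1 := fun i => norm_le_one_of (et_ord i) (et_tot i)
  have key : ‖push j hj η * ν‖ ≤ Real.sqrt (‖push j hj κ * ν‖ * ‖ν‖) := by
    refine Meas.norm_le_one (Real.sqrt_nonneg _) fun f hf => ?_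
    refine le_of_forall_pos_le_add fun ε hε => ?_
    obtain ⟨F, g, hg1, hg2, hg3⟩ := exists_approxK j hj f
      (δ := ε / (‖push j hj η * ν‖ + 1)) (by positivity)
    have h1 : ‖(push j hj η * ν) g‖ ^ 2 ≤ ‖push j hj κ * ν‖ * ‖ν‖ :=
      core (κF := push j hj (∏ i ∈ F, kap i)) (ηF := push j hj (∏ i ∈ F, et i))
        (wF := push j hj (∏ i ∈ F, wm i)) (Y := j '' Z F)
        (by
          rw [← push_mul, ← Finset.prod_mul_distrib]
          congr 1
          exact Finset.prod_congr rfl fun i _ => et_eq i)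
        (dom_push j hj (Dom.prod F (fun i _ => dom_i i) (fun i _ => kap_ord i) fun i _ => et_ord i))
        (ord_push j hj (Ord.prod F fun i _ => kap_ord i))
        ((push_norm j hj _).trans (norm_prod_le' F hηn))
        (fun g hg => cv_push_congr j hj (hκ F) g hg) hg1 (cv_push_congr j hj (hη F) g hg1)
        (hg2.trans hf) ν
    have h2 : ‖(push j hj η * ν) g‖ ≤ Real.sqrt (‖push j hj κ * ν‖ * ‖ν‖) := Real.le_sqrt_of_sq_le h1
    have h3 : ‖(push j hj η * ν) (f - g)‖ ≤ ε := by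
      refine (Meas.le_of (le_refl ‖push j hj η * ν‖) hg3).trans ?_
      rw [mul_div_assoc', div_le_iff₀ (by positivity)]
      nlinarith [norm_nonneg (push j hj η * ν)]
    have h4 : (push j hj η * ν) f = (push j hj η * ν) g + (push j hj η * ν) (f - g) := by
      rw [map_sub]; ring
    rw [h4]
    exact (norm_add_le _ _).trans (add_le_add h2 h3)
  calc ‖push j hj η * ν‖ ^ 2 ≤ Real.sqrt (‖push j hj κ * ν‖ * ‖ν‖) ^ 2 := by gcongr
    _ = _ := Real.sq_sqrt (by positivity)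

theorem push_pow (η : Meas GG) (n : ℕ) : (push j hj η) ^ n = push j hj (η ^ n) := by
  have h := map_pow (pushA j hj) η n
  exact h.symm

theorem dist_boundK (hinj : Function.Injective j) {κ η : Meas GG}
    (hκ : ∀ (F : Finset (ℕ × ℕ)) (g : C₀(GG, ℂ)), TH258.Cx.Inv (Z F) g →
      cv κ g = cv (∏ i ∈ F, kap i) g)
    (hη : ∀ (F : Finset (ℕ × ℕ)) (g : C₀(GG, ℂ)), TH258.Cx.Inv (Z F) g →
      cv η g = cv (∏ i ∈ F, et i) g)
    (n : ℕ) (σ : Meas K) : 1 ≤ ‖(push j hj η) ^ n - push j hj κ * σ‖ := by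
  have key : ∀ N : ℕ, 1 - (1 + 2 * ‖σ‖) * qn n ^ N ≤ ‖(push j hj η) ^ n - push j hj κ * σ‖ := by
    intro N
    set F := blk n N with hF
    have hq0 : 0 < qn n ^ N := pow_pos (qq_pos _) _
    obtain ⟨f, hf1, hf2, hf3⟩ := exists_test j hj hinj κ (Ps F) (Ps_norm F) hq0
    have h1 : ‖((push j hj η) ^ n - push j hj κ * σ) f‖ ≤ ‖(push j hj η) ^ n - push j hj κ * σ‖ := by
      have := Meas.le_of (le_refl ‖(push j hj η) ^ n - push j hj κ * σ‖) hf1
      linarith
    have h20 : ‖cv κ (Ps F)‖ ≤ qn n ^ N := by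
      rw [hκ F _ (Ps_inv F), c0_norm_le hq0.le]
      intro x
      exact kap_bound n N x
    have h2 : ‖(push j hj κ * σ) f‖ ≤ ‖σ‖ * (2 * qn n ^ N) := by
      rw [mul_apply']
      refine Meas.le_of le_rfl (hf3.trans ?_)
      linarith
    have h3 : ‖(η ^ n) (cst 1 - Ps F)‖ ≤ qn n ^ N := by
      have hinv : TH258.Cx.Inv (Z F) (cst 1 - Ps F) := (cst_inv _ _).sub (Ps_inv F)
      rw [apply_eq, cv_pow_eq hη F n _ hinv]
      exact et_bound n N
    have h4 : (η ^ n) (cst 1) = 1 := by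
      rw [apply_eq, cv_pow_eq hη ∅ n _ (cst_inv _ _), Finset.prod_empty, cv_one, cst_apply]
    have h45 : ((push j hj η) ^ n) f = (η ^ n) (Ps F) := by
      rw [push_pow, push_apply, hf2]
    have h5 : ((push j hj η) ^ n - push j hj κ * σ) f =
        1 - (η ^ n) (cst 1 - Ps F) - (push j hj κ * σ) f := by
      rw [Meas.sub_apply, h45, map_sub, h4]; ring
    have h6 : 1 - ‖(η ^ n) (cst 1 - Ps F)‖ - ‖(push j hj κ * σ) f‖ ≤
        ‖((push j hj η) ^ n - push j hj κ * σ) f‖ := by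
      rw [h5]
      have a1 := norm_sub_norm_le (1 - (η ^ n) (cst 1 - Ps F)) ((push j hj κ * σ) f)
      have a2 := norm_sub_norm_le (1 : ℂ) ((η ^ n) (cst 1 - Ps F))
      rw [norm_one] at a2
      linarith
    nlinarith
  have hlim : Tendsto (fun N : ℕ => 1 - (1 + 2 * ‖σ‖) * qn n ^ N) atTop
      (𝓝 (1 - (1 + 2 * ‖σ‖) * 0)) :=
    tendsto_const_nhds.sub ((tendsto_pow_atTop_nhds_zero_of_lt_one (qq_pos _).le (qq_lt _)).const_mul _)
  rw [mul_zero, sub_zero] at hlim
  exact le_of_tendsto' hlim key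

include hj in
/-- the main theorem for a group containing `GG` -/
theorem mainK (hinj : Function.Injective j) : ∃ (φ : Meas K →ₐ[ℂ] ℂ) (x : Fin 2 → Meas K),
    (∀ i, φ (x i) = 0) ∧ ∀ ν : Meas K, 3 / 4 * ‖ν‖ ≤ ∑ i, ‖x i * ν‖ := by
  obtain ⟨κ, hκn, hκ⟩ := exists_limit (μ := kap) kap_tot fun i => norm_le_one_of (kap_ord i) (kap_tot i)
  obtain ⟨η, hηn, hη⟩ := exists_limit (μ := et) et_tot fun i => norm_le_one_of (et_ord i) (et_tot i)
  obtain ⟨φ, h1, h2⟩ := exists_char (push j hj κ) (push j hj η) (dist_boundK j hj hinj hκ hη)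
  refine ⟨φ, ![push j hj κ, push j hj η - (φ (push j hj η)) • 1], ?_, ?_⟩
  · intro i
    fin_cases i
    · exact h1
    · change φ (push j hj η - (φ (push j hj η)) • 1) = 0
      rw [map_sub, map_smul, map_one, smul_eq_mul, mul_one, sub_self]
  · intro ν
    rw [Fin.sum_univ_two]
    change 3 / 4 * ‖ν‖ ≤ ‖push j hj κ * ν‖ + ‖(push j hj η - (φ (push j hj η)) • 1) * ν‖
    have h3 := main_ineqK j hj hκ hη ν
    have h4 : ‖φ (push j hj η)‖ * ‖ν‖ - ‖push j hj η * ν‖ ≤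
        ‖(push j hj η - (φ (push j hj η)) • 1) * ν‖ := by
      have e : (push j hj η - (φ (push j hj η)) • 1) * ν =
          push j hj η * ν - (φ (push j hj η)) • ν := by
        rw [sub_mul, smul_mul_assoc, one_mul]
      rw [e]
      have := norm_sub_norm_le ((φ (push j hj η)) • ν) (push j hj η * ν)
      rw [norm_smul, norm_sub_rev] at this
      exact this
    have h5 : ‖ν‖ ≤ ‖φ (push j hj η)‖ * ‖ν‖ := le_mul_of_one_le_left (norm_nonneg _) h2
    have h6 : ‖push j hj η * ν‖ ≤ ‖push j hj κ * ν‖ + ‖ν‖ / 4 := by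
      refine abs_le_of_sq_le_sq' (a := ‖push j hj η * ν‖) (b := ‖push j hj κ * ν‖ + ‖ν‖ / 4) ?_
        (by positivity) |>.2
      nlinarith [sq_nonneg (‖push j hj κ * ν‖ - ‖ν‖ / 4)]
    linarith

/-- groups with a quotient by a compact subgroup that contains `GG` -/
theorem mainQ {Q : Type v} [AddCommGroup Q] [TopologicalSpace Q] [IsTopologicalAddGroup Q]
    [T2Space Q] [LocallyCompactSpace Q] (q : K →+ Q) (hq : IsProperMap q)
    (hs : Function.Surjective q) (i : GG →+ Q) (hi : Continuous i) (hinj : Function.Injective i) :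
    ∃ (φ : Meas K →ₐ[ℂ] ℂ) (x : Fin 3 → Meas K),
    (∀ i, φ (x i) = 0) ∧ ∀ ν : Meas K, 3 / 4 * ‖ν‖ ≤ ∑ i, ‖x i * ν‖ := by
  obtain ⟨φ, x, h1, h2⟩ := mainK i hi.isProperMap hinj
  exact transfer q hq hs φ 2 x h1 (3 / 4) (by norm_num) (by norm_num) h2

end

end Pool.Agent.Y513.Ctx
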